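import Pool.Agent.Helper82.SG.St

/-!
# Project SG, module ASR: bounded aspect ratio
-/

set_option autoImplicit false

namespace Pool.Agent.Helper67.SG

open Finset Real MeasureTheory Pool.Agent.Helper77.Steiner Pool.Agent.Helper82.SG
open Pool.Agent.Helper18.GP (nlen NConn)
open scoped ENNReal

private lemma net_nonneg {E : Type*} [PseudoMetricSpace E] {V : Finset E} {l : ℝ} (h : Net V l) :
    0 ≤ l := by
  induction h with
  | single v => exact le_refl _
  | step h hp w ih => exact add_nonneg ih dist_nonneg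

private lemma mst_one {E : Type*} [MetricSpace E] {B : Finset E} (hB : B.Nonempty)
    (h1 : B.card ≤ 1) : mstLen B ≤ 0 := by
  have h := Pool.Agent.Helper77.GP.mstLen_le_list B hB [] (by simp) (by
    intro a ha b hb
    have : a = b := Finset.card_le_one.1 h1 a (by exact_mod_cast ha) b (by exact_mod_cast hb)
    rw [this]
    exact Relation.EqvGen.refl _)
  simpa [nlen] using h

theorem hASR (hNTW : StNTW) (hHAU : StHAU) : StASR := by
  intro d K hd hK
  have hK0 : (0 : ℝ) < K := by exact_mod_cast hK
  set D : ℝ := 4 * exp (3 * K) with hD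
  have hD1 : 1 ≤ D := by
    have : 1 ≤ exp (3 * (K : ℝ)) := Real.one_le_exp (by positivity)
    rw [hD]; linarith
  set ρ : ℝ≥0∞ := ⨅ (A : Finset (EuclideanSpace ℝ (Fin d))) (_ : 2 ≤ A.card) (_ : Asp A D),
    steinerLen A / ENNReal.ofReal (mstLen A) with hρ
  have hρle : ∀ A : Finset (EuclideanSpace ℝ (Fin d)), 2 ≤ A.card → Asp A D →
      ρ ≤ steinerLen A / ENNReal.ofReal (mstLen A) := fun A h1 h2 =>
    iInf_le_of_le A (iInf_le_of_le h1 (iInf_le_of_le h2 le_rfl))
  -- finiteness
  have hfin : ρ ≠ ⊤ := by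
    have : Nonempty (Fin d) := ⟨⟨0, hd⟩⟩
    obtain ⟨a, b, hab⟩ := exists_pair_ne (EuclideanSpace ℝ (Fin d))
    have hcard : ({b, a} : Finset (EuclideanSpace ℝ (Fin d))).card = 2 := by
      rw [Finset.card_pair hab.symm]
    have hasp : Asp ({b, a} : Finset (EuclideanSpace ℝ (Fin d))) D := by
      have key : ∀ x ∈ ({b, a} : Finset (EuclideanSpace ℝ (Fin d))),
          ∀ y ∈ ({b, a} : Finset (EuclideanSpace ℝ (Fin d))), dist x y ≤ dist a b ∧
            (x ≠ y → dist x y = dist a b) := by
        intro x hx y hy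
        rw [Finset.mem_insert, Finset.mem_singleton] at hx hy
        rcases hx with rfl | rfl <;> rcases hy with rfl | rfl <;>
          simp [dist_comm, dist_nonneg]
      intro x hx y hy u hu v hv huv
      have h1 := (key x hx y hy).1
      have h2 := (key u hu v hv).2 huv
      rw [h2]
      have : 0 ≤ dist a b := dist_nonneg
      nlinarith
    have hnet : Net ({b, a} : Finset (EuclideanSpace ℝ (Fin d))) (0 + dist a b) := by
      have h := Net.step (Net.single a) (Finset.mem_singleton_self a) b
      convert h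
    have h1 := hHAU _ _ _ hnet (Finset.Subset.refl _)
    have h2 := hρle _ (by rw [hcard]) hasp
    have hpos := mstLen_pos ({b, a} : Finset (EuclideanSpace ℝ (Fin d))) (by rw [hcard])
    refine ne_top_of_le_ne_top ?_ h2
    refine ENNReal.div_ne_top (ne_top_of_le_ne_top ENNReal.ofReal_ne_top h1) ?_
    simpa using hpos
  set c : ℝ := ρ.toReal with hc
  have hc0 : 0 ≤ c := ENNReal.toReal_nonneg
  have hcρ : ENNReal.ofReal c = ρ := ENNReal.ofReal_toReal hfin
  -- the hypothesis of NTW
  have hB : ∀ B : Finset (EuclideanSpace ℝ (Fin d)), B.Nonempty → Asp B (4 * exp (3 * K)) →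
      ∀ (V : Finset (EuclideanSpace ℝ (Fin d))) (l : ℝ), Net V l → B ⊆ V →
        c * mstLen B ≤ l := by
    intro B hBne hasp V l hN hBV
    have hl := net_nonneg hN
    by_cases h2 : 2 ≤ B.card
    · have h3 := hρle B h2 hasp
      have hpos := mstLen_pos B h2
      rw [ENNReal.le_div_iff_mul_le (Or.inl (by simpa using hpos))
        (Or.inl ENNReal.ofReal_ne_top)] at h3
      have h4 := h3.trans (hHAU B V l hN hBV)
      rw [← hcρ, ← ENNReal.ofReal_mul hc0, ENNReal.ofReal_le_ofReal_iff hl] at h4
      exact h4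
    · have h3 := mst_one hBne (by omega)
      have h4 : c * mstLen B ≤ 0 := mul_nonpos_of_nonneg_of_nonpos hc0 h3
      linarith
  have hmain := hNTW K c hK hc0 hB
  set κ : ℝ := 1 + 4 / K with hκ
  have hκ0 : 0 < κ := by rw [hκ]; positivity
  -- the lower bound of the ratio
  have hlow : ENNReal.ofReal (c / κ) ≤ steinerRatio d := by
    unfold steinerRatio steinerRatioOf
    refine le_iInf₂ fun A hA => ?_
    have hAne : A.Nonempty := Finset.card_pos.1 (by omega)
    have hpos := mstLen_pos A hA
    rw [ENNReal.le_div_iff_mul_le (Or.inl (by simpa using hpos)) (Or.inl ENNReal.ofReal_ne_top)]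
    unfold steinerLen
    refine le_iInf fun S => le_iInf₂ fun _ hS => ?_
    by_cases hSt : μH[1] S = ⊤
    · rw [hSt]; exact le_top
    · have hA0 : μH[1] (A : Set (EuclideanSpace ℝ (Fin d))) = 0 := by
        have := Measure.nullSingletonClass_hausdorff (EuclideanSpace ℝ (Fin d)) (d := 1) one_pos
        exact A.finite_toSet.measure_zero _
      have hSA : μH[1] (S ∪ (A : Set (EuclideanSpace ℝ (Fin d)))) ≤ μH[1] S := by
        refine (measure_union_le _ _).trans ?_
        rw [hA0, add_zero]
      have hSAfin : μH[1] (S ∪ (A : Set (EuclideanSpace ℝ (Fin d)))) ≠ ⊤ :=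
        ne_top_of_le_ne_top hSt hSA
      have h3 : (μH[1] (S ∪ (A : Set (EuclideanSpace ℝ (Fin d))))).toReal ≤ (μH[1] S).toReal :=
        ENNReal.toReal_mono hSt hSA
      have hreal : c / κ * mstLen A ≤ (μH[1] S).toReal := by
        apply le_of_forall_pos_le_add
        intro ε hε
        obtain ⟨V, l, hN, hAV, hl⟩ := exists_net hS.isPreconnected A hAne
          (fun x hx => Or.inr (by exact_mod_cast hx)) hSAfin hε
        have h4 := hmain A hAne V l hN hAV
        rw [div_mul_eq_mul_div, div_le_iff₀ hκ0]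
        calc c * mstLen A ≤ κ * l := h4
          _ ≤ κ * ((μH[1] S).toReal + ε) := mul_le_mul_of_nonneg_left (by linarith) hκ0.le
          _ = _ := by ring
      rw [← ENNReal.ofReal_mul (by positivity)]
      exact ENNReal.ofReal_le_of_le_toReal hreal
  calc ρ = ENNReal.ofReal κ * ENNReal.ofReal (c / κ) := by
        rw [← ENNReal.ofReal_mul hκ0.le, mul_div_cancel₀ c hκ0.ne', hcρ]
    _ ≤ ENNReal.ofReal κ * steinerRatio d := by gcongr

end Pool.Agent.Helper67.SG
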